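import Pool.Agent.MP_ee8c61_ag.N3RT.Top
import Pool.Agent.MP_ee8c61_ag.N3RT.Root
import Pool.Agent.MP_ee8c61_ag.H95.AChart
import Pool.Agent.MP_ee8c61_ag.R3B.Defs

/-! The complex manifold attached to a model; the multiplicity of a root at a threshold. -/

namespace Pool.Agent.MP_ee8c61_ag.N3RT

open M3 M3L N3Zt MvPolynomial Set Filter Topology
open Pool.Agent.MP_96693b_ag.RS (Loc LocOf exists_locOf exists_locOf_of_notMem)

noncomputable section

variable {N r : ℕ} {M : Mod N} {F : Fin r → Po N} {j₀ : Fin r}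

/-- The map to projective space. -/
def bt (hj : F j₀ ≠ 0) (P : Pt M) : Projectivization ℂ (Fin r → ℂ) :=
  .mk ℂ (fun i => P.1.ev (ip N (F i) / ip N (F j₀))) fun e => by
    have := congrFun e j₀
    rw [div_self (M3B1.ip_ne hj), Loc.ev_one] at this
    exact one_ne_zero this

theorem ev_chart (h : OK0 M) {b : M.ι} {y : Pt M} (hb : LocOf (M.S.A b) y.1) :
    ∀ᶠ l in 𝓝 y, LocOf (M.S.A b) l.1 := by
  obtain ⟨G⟩ := exists_gn h b
  have k := tendsto_pt.1 (tendsto_id (x := 𝓝 y))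
  filter_upwards [eventually_all.2 fun i => (k _ (hb.le (G.y i).2)).1] with l hl
  obtain ⟨a, ha⟩ := l.2
  refine locOf_of_le ha ?_
  rw [← G.adj]
  exact Algebra.adjoin_le (range_subset_iff.2 hl)

theorem isLoc [NeZero N] (h : OK0 M) (hj : F j₀ ≠ 0) (pos : ∀ i, 0 < M.a i)
    (ord : ∀ b, ∃ U : (KK N)ˣ, M.S.IsU b U ∧ ip N (F j₀) = U * M.mon b M.aa)
    (rat : ∀ i b, ip N (F i) / ip N (F j₀) ∈ M.S.A b) :
    IsLoc F (an (M := M)) (bt hj) (fun j => {P | M.On P.1 j}) M.a M.k := by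
  classical
  refine ⟨fun l hl l' hl' e => ?_, pos, fun y => ?_⟩
  · simp only [mem_compl_iff, mem_iUnion, not_exists] at hl hl'
    exact Subtype.ext (Loc.ext' (le_antisymm (le_of_off h hl e) (le_of_off h hl' e.symm)))
  obtain ⟨b, hL⟩ := y.2
  let z : Fin N → M.S.A b := fun l => ⟨M.S.z b l, M.S.z_mem b l⟩
  let x : Fin N → M.S.A b := fun i => ⟨ip N (X i), h.pol b _⟩
  obtain ⟨Ψ, h0, h1, h2⟩ := H95.chart_at (z := z) (h.et b) (evh hL)
  choose pt i1 i2 using fun τ => exists_locOf (fg h b) (Ψ τ)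
  let ψ : (Fin N → ℂ) → Pt M := fun τ => ⟨pt τ, b, i1 τ⟩
  have i3 : ∀ τ (l : Pt M) (hl : LocOf (M.S.A b) l.1), Ψ τ = evh hl → ψ τ = l := fun τ l hl e =>
    pt_ext (i1 τ) hl fun s hs => (i2 τ ⟨s, hs⟩).trans (by rw [e]; rfl)
  have i4 : ∀ s : M.S.A b, y.1.ev s = Ψ 0 s := fun s => by rw [h0]; rfl
  have i5 : an ∘ ψ = fun τ i => Ψ τ (x i) := funext fun τ => funext fun i => i2 τ (x i)
  have a0 := h1.self_of_nhds.2
  let I : Finset M.J := Finset.univ.filter (M.On y.1)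
  let e : M.J → Fin N := fun j => (M.S.lab b j).getD 0
  have z0 : ∀ j, j ∈ I ↔ Ψ 0 (et b j) = 0 := fun j => by
    rw [← i4]
    exact (Finset.mem_filter_univ j).trans (on_iff h hL j)
  have he : ∀ j ∈ I, M.S.lab b j = some (e j) := fun j hj => by
    cases c : M.S.lab b j with
    | none =>
      have := (z0 j).1 hj
      rw [show et b j = 1 from Subtype.ext (by simp [et, Mod.η, M.S.η_none b j c]), map_one] at this
      exact absurd this one_ne_zero
    | some l => simp [e, c]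
  have ez : ∀ j ∈ I, et b j = z (e j) := fun j hj => Subtype.ext (M.S.η_some b j _ (he j hj))
  have z1 : ∀ᶠ τ in 𝓝 0, ∀ j ∈ Iᶜ, Ψ τ (et b j) ≠ 0 :=
    (eventually_all_finset _).2 fun j hj => (a0 _).continuousAt.eventually_ne fun c =>
      Finset.mem_compl.1 hj ((z0 j).2 c)
  let m : (M.J → ℕ) → M.S.A b := fun c => ∏ i ∈ Iᶜ, et b i ^ c i
  have m1 : ∀ᶠ τ in 𝓝 0, ∀ c, Ψ τ (m c) ≠ 0 := z1.mono fun τ e c => by
    simpa only [m, map_prod, map_pow] using
      Finset.prod_ne_zero_iff.2 fun i hi => pow_ne_zero _ (e i hi)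
  obtain ⟨U, hU, eU⟩ := ord b
  obtain ⟨W, hW, eW⟩ := h.det b
  let u : M.S.A b := ⟨U, hU.1⟩
  let v : M.S.A b := ⟨W, hW.1⟩
  have uu : IsUnit u := IsUnit.of_mul_eq_one ⟨_, hU.2⟩ (Subtype.ext U.mul_inv)
  have uv : IsUnit v := IsUnit.of_mul_eq_one ⟨_, hW.2⟩ (Subtype.ext W.mul_inv)
  let D : Fin N → M.S.A b → M.S.A b := fun l a => ⟨M.S.D b l a, M.S.D_mem b l a a.2⟩
  have jac : (Matrix.of fun i l => D l (x i)).det = (∏ j, et b j ^ M.k j) * v := by
    refine Subtype.ext ?_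
    rw [MulMemClass.coe_mul, ← mon_nat, mul_comm]
    refine .trans ?_ eW
    refine ((M.S.A b).val.map_det _).trans (congrArg Matrix.det (Matrix.ext fun i l => ?_))
    change M.S.D b l (ip N (X i)) = M.S.D b l (M.S.r i)
    rw [h.r]
  let t : Fin r → M.S.A b := fun i => ⟨_, rat i b⟩
  have fac : ∀ i, (⟨ip N (F i), h.pol b _⟩ : M.S.A b) = (∏ j, et b j ^ M.a j) * (u * t i) :=
    fun i => by
    refine Subtype.ext ?_
    rw [← mul_assoc, MulMemClass.coe_mul, MulMemClass.coe_mul, ← mon_nat, mul_comm (M.mon _ _)]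
    exact (mul_div_cancel₀ _ (M3B1.ip_ne hj)).symm.trans (congrArg (· * (t i : KK N)) eU)
  refine ⟨ψ, I, e, fun τ i => Ψ τ (m M.a * (u * t i)), fun τ => Ψ τ (m M.k * v), i3 0 y hL h0,
    le_antisymm ?_ fun S hS => ?_, ⟨_, h1, 1, fun l => encard_le_one_iff.2 ?_⟩,
    fun j hj j' hj' c => M.S.lab_inj b j j' _ (he j hj) (c ▸ he j' hj'),
    i5 ▸ analyticAt_pi_iff.2 fun i => a0 _, analyticAt_pi_iff.2 fun j => a0 _, a0 _, ?_, ?_⟩
  · refine tendsto_pt.2 (gl_of_chart hL fun s hs => ⟨.of_forall fun τ => (i1 τ).le hs, ?_⟩)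
    have := (a0 ⟨s, hs⟩).continuousAt.tendsto
    rw [← i4] at this
    simp only [← i2] at this
    exact this
  · have k1 := ev_chart h hL
    have k2 := tendsto_pt.1 (tendsto_id (x := 𝓝 y))
    let p : Pt M → M.S.A b →ₐ[ℂ] ℂ := fun l =>
      if hl : LocOf (M.S.A b) l.1 then evh hl else evh hL
    have k3 : ∀ s, Tendsto (p · s) (𝓝 y) (𝓝 (evh hL s)) := fun s =>
      (k2 s (hL.le s.2)).2.congr' (k1.mono fun l hl => by
        simp only [p, dif_pos hl]
        rfl)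
    filter_upwards [k1, h2 _ p k3, (tendsto_pi_nhds.2 fun i => by
      simpa using (k3 (z i)).sub_const (evh hL (z i))).eventually hS] with l hl e1 e2
    exact i3 _ l hl (e1.trans (dif_pos hl)) ▸ e2
  · rintro τ τ' ⟨k1, k2⟩ ⟨k3, k4⟩
    funext i
    have c := k1.1 i
    rw [← i2, show pt τ = pt τ' from congrArg Subtype.val (k2.trans k4.symm), i2, k3.1 i] at c
    exact (add_left_cancel c).symm
  · exact (map_mul _ _ _).trans_ne (mul_ne_zero (m1.self_of_nhds _) (uv.map _).ne_zero)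
  filter_upwards [h1.eventually_nhds, z1, m1] with τ k0 k3 k4
  obtain ⟨k1, k2⟩ := k0.self_of_nhds
  have k5 : ∀ j ∈ I, Ψ τ (et b j) = τ (e j) := fun j hj => by
    rw [ez j hj, k1, ← h0, ← ez j hj, (z0 j).1 hj, zero_add]
  have k6 : ∀ (c : M.J → ℕ) u, Ψ τ ((∏ i, et b i ^ c i) * u) =
      (∏ i ∈ I, τ (e i) ^ c i) * Ψ τ (m c * u) := fun c u => by
    rw [← Finset.prod_mul_prod_compl I, mul_assoc, map_mul, map_prod]
    exact congrArg (· * _) (Finset.prod_congr rfl fun j hj => by rw [map_pow, k5 j hj])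
  have k7 : Ψ τ (m M.a * u) ≠ 0 := (map_mul _ _ _).trans_ne (mul_ne_zero (k4 _) (uu.map _).ne_zero)
  refine ⟨fun j => ((on_iff h (i1 τ) j).trans (Eq.congr_left (i2 τ (et b j)))).trans
    ⟨fun c => ?_, fun c => (k5 j c.1).trans c.2⟩, ?_, fun j => ?_, ?_⟩
  · have := by_contra fun n : j ∉ I => k3 j (Finset.mem_compl.2 n) c
    exact ⟨this, (k5 j this).symm.trans c⟩
  · rw [← k6, ← jac, AlgHom.map_det, ContinuousLinearMap.det, ← LinearMap.det_toMatrix', i5,
      fderiv_pi fun i => (k2 _).differentiableAt]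
    refine congrArg Matrix.det (Matrix.ext fun i l => sub_eq_zero.1 ?_)
    obtain ⟨d1, d2, d3⟩ := H95.der_fam k2 (Pi.single l 1)
    have D1 : ∀ s t, D l (s + t) = D l s + D l t := fun s t =>
      Subtype.ext (map_add (M.S.D b l) s.1 t.1)
    have D2 : ∀ s t, D l (s * t) = s * D l t + t * D l s := fun s t =>
      Subtype.ext ((M.S.D b l).leibniz s.1 t.1)
    have D3 : ∀ c, D l (algebraMap ℂ _ c) = 0 := fun c =>
      Subtype.ext ((M.S.D b l).map_algebraMap c)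
    have D4 : ∀ i, D l (z i) = if l = i then 1 else 0 := fun i => Subtype.ext (by
      change M.S.D b l (M.S.z b i) = _
      rw [M.S.D_z]
      split_ifs <;> rfl)
    simpa using H95.unr (z := z) (h.et b) (Ψ τ)
      (fun s => fderiv ℂ (Ψ · s) τ (Pi.single l 1) - Ψ τ (D l s))
      (fun a b => by rw [d1, D1, map_add]; ring)
      (fun a b => by rw [d2, D2, map_add, map_mul, map_mul]; ring)
      (fun c => by rw [d3, D3, map_zero, sub_zero])
      (fun i => by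
        rw [EventuallyEq.fderiv_eq (k0.mono fun t e => e.1 i), fderiv_const_add,
          (hasFDerivAt_apply i τ).fderiv, D4]
        simp [Pi.single_apply, eq_comm]) (x i)
  · rw [← k6, ← fac, ← i2, ← ev_ip h]
  · have k8 : ∀ i, Ψ τ (m M.a * (u * t i)) =
        Ψ τ (m M.a * u) * (ψ τ).1.ev (ip N (F i) / ip N (F j₀)) := fun i => by
      rw [← mul_assoc, map_mul, ← i2 τ (t i)]
    refine ⟨fun c => k7 ?_, ((Projectivization.mk_eq_mk_iff' _ _ _ _ _).2
      ⟨_, _root_.funext fun i => (k8 i).symm⟩).symm⟩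
    have := (k8 j₀).symm.trans (congrFun c j₀)
    rwa [div_self (M3B1.ip_ne hj), Loc.ev_one, mul_one] at this

theorem ev_eq (hj : F j₀ ≠ 0) (h : OK0 M) {u : KK N} (hu : u ∈ N3.A0 F j₀) (u0 : u ≠ 0)
    (hA : ∀ b, aw (N3.A0 F j₀) u ≤ M.S.A b) {P P' : Pt M} (e : an P = an P')
    (e' : bt hj P = bt hj P') : ∀ g ∈ aw (N3.A0 F j₀) u, P.1.ev g = P'.1.ev g := by
  have k : ∀ P : Pt M, aw (N3.A0 F j₀) u ≤ P.1.O := fun P => P.2.elim fun b hb => (hA b).trans hb.le
  let B : Subalgebra ℂ (KK N) :=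
    { carrier := {g | g ∈ aw (N3.A0 F j₀) u ∧ P.1.ev g = P'.1.ev g}
      mul_mem' := fun a b => ⟨mul_mem a.1 b.1, by
        rw [P.1.ev_mul _ (k P a.1) _ (k P b.1), P'.1.ev_mul _ (k P' a.1) _ (k P' b.1), a.2, b.2]⟩
      add_mem' := fun a b => ⟨add_mem a.1 b.1, by
        rw [P.1.ev_add _ (k P a.1) _ (k P b.1), P'.1.ev_add _ (k P' a.1) _ (k P' b.1), a.2, b.2]⟩
      algebraMap_mem' := fun c => ⟨Subalgebra.algebraMap_mem _ c, by
        rw [P.1.ev_alg, P'.1.ev_alg]⟩ }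
  obtain ⟨c, hc⟩ := (Projectivization.mk_eq_mk_iff' _ _ _ _ _).1 e'
  have c1 : c = 1 := by
    have : c * P'.1.ev (_ / _) = P.1.ev (_ / _) := congrFun hc j₀
    rwa [div_self (M3B1.ip_ne hj), Loc.ev_one, Loc.ev_one, mul_one] at this
  have h1 : N3.A0 F j₀ ≤ B := N3.A0_le
    (fun p => ⟨le_aw (N3.pol_mem p), by rw [ev_ip h, ev_ip h, e]⟩)
    fun i => ⟨le_aw (N3.rat_mem i), by simpa [c1] using (congrFun hc i).symm⟩
  have h2 : ∀ P : Pt M, P.1.ev u * P.1.ev u⁻¹ = 1 := fun P => by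
    rw [← P.1.ev_mul _ (k P (le_aw hu)) _ (k P inv_mem_aw), mul_inv_cancel₀ u0, Loc.ev_one]
  exact fun g hg => (aw_le (B := B) h1 ⟨inv_mem_aw, by
    rw [eq_inv_of_mul_eq_one_right (h2 P), eq_inv_of_mul_eq_one_right (h2 P'), (h1 hu).2]⟩ hg).2

theorem srti : N3.Q3B.SRTI := by
  intro r F b j₀ u B hb hj hu u0 hO M' h' la I V g hV hI hg hneg
  let M : Mod 3 := M'.old
  have h : OK0 M := N3.M3L.ok0 h'
  have hA : ∀ c, aw (N3.A0 F j₀) u ≤ M.S.A c := fun c g hg =>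
    h'.pol c ⟨g, N3.mem_Rb.2 fun V hV => (hO.2 V).1 hV g hg⟩
  have hp := proper h (N3.xx 3) (fun l c => h'.xx_mem c l) fun V a1 a2 =>
    h'.cov V (N3.ov_iff.2 ⟨a1, a2⟩)
  have : WeaklyLocallyCompactSpace (Pt M) := ⟨fun y => ⟨_, hp.isCompact_preimage
    (isCompact_closedBall _ 1), hp.continuous.continuousAt (Metric.closedBall_mem_nhds _ one_pos)⟩⟩
  obtain ⟨c, hc⟩ := h'.cov V hV
  let q : Ideal (M.S.A c) :=
    { carrier := {a | V.valuation (a : KK 3) < 1}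
      zero_mem' := by simp
      add_mem' := fun {s t} ha hb => V.valuation.map_add_lt (x := s) (y := t) ha hb
      smul_mem' := fun s a ha => by
        change V.valuation ((s : KK 3) * a) < 1
        rw [map_mul]
        exact (mul_le_of_le_one_left' ((V.valuation_le_one_iff _).2 (hc _ s.2))).trans_lt ha }
  obtain ⟨P, hP, h1, h2⟩ := exists_locOf_of_notMem (fg h c) (I := q) (r := ⟨ip 3 g, h.pol c g⟩)
    fun ⟨n, hn⟩ => by
      change V.valuation (ip 3 g ^ n) < 1 at hn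
      rw [map_pow, un_iff.1 hg, one_pow] at hn
      exact lt_irrefl _ hn
  have := root_dvd F b hb _ _ _ _ _
    (isLoc h hj h'.pos h'.ord fun i c => hA c (le_aw (N3.rat_mem i)))
    (continuous_pi fun i => cont fun c => h.pol c _) ⟨P, c, hP⟩
    (hp.isCompact_preimage isCompact_singleton)
    (fun y hy => _root_.funext fun l => ev_eq hj h hu u0 hA hy.1 hy.2 _ (hO.1 l))
    la I (fun i hi => ⟨?_, ?_⟩) fun j ⟨y, hy, hy'⟩ => ?_
  · rwa [Complex.ofReal_ratCast, map_neg, sub_neg_eq_add] at this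
  · exact (on_iff h hP i).2 (h1 (et c i) ((not_un_iff (hc _ (eta_mem c i))).1 ((hI i hi).2 c hc)))
  · exact_mod_cast sub_eq_zero.1 (hI i hi).1
  · have h3 : y.1.ev (ip 3 g) ≠ 0 := by
      rw [ev_ip h, (connectedComponentIn_subset _ _ hy').1, ← ev_ip h]
      exact h2
    have h4 : ¬M'.ex la j < 0 := fun hn => by
      have h5 := (hneg j hn).resolve_left hg.1
      have h6 := (hy _ (y.1.inv_mem _ (ip_mem h y g) h3)).resolve_left (inv_ne_zero hg.1)
      rw [(M.v j).inv] at h6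
      exact absurd (h5.trans (neg_nonneg.1 h6)) (by norm_num)
    exact_mod_cast sub_nonneg.1 (not_lt.1 h4)

end

end Pool.Agent.MP_ee8c61_ag.N3RT
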